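import Pool.Agent.Helper69.UX.StB

/-! # Project UX (MP_e12aa9_pr): module LAB -/

set_option autoImplicit false

namespace Pool.Agent.Helper24.UX

open Finset Filter Pool.Agent.Helper82.CN Pool.Agent.Helper11.PV Pool.Agent.Helper69.VX
open Pool.Agent.Helper69.UX

private lemma count {V : Type} [Fintype V] [DecidableEq V] (l : ℕ) (P : Finset (Finset V))
    (hne : ∀ A ∈ P, A.Nonempty) (hdis : ∀ A ∈ P, ∀ B ∈ P, A ≠ B → Disjoint A B)
    (hcov : ∀ v : V, ∃ A ∈ P, v ∈ A) (hcard : P.card = l) :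
    ∃ E : Finset (V → Fin l), E.card = l.factorial ∧
      ∀ f ∈ E, Function.Surjective f ∧ univ.image (fib f) = P := by
  choose cls hclsP hclsm using hcov
  have hcls : ∀ A ∈ P, ∀ v ∈ A, cls v = A := by
    intro A hA v hv
    by_contra hne'
    exact Finset.disjoint_left.1 (hdis _ (hclsP v) A hA hne') (hclsm v) hv
  have hP' : Fintype.card (Fin l) = Fintype.card {A // A ∈ P} := by
    rw [Fintype.card_fin, Fintype.card_coe, hcard]
  have hcardE : Fintype.card (Fin l ≃ {A // A ∈ P}) = l.factorial := by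
    rw [Fintype.card_equiv (Fintype.equivOfCardEq hP'), Fintype.card_fin]
  have hfib : ∀ (e : Fin l ≃ {A // A ∈ P}) (i : Fin l),
      fib (fun v => e.symm ⟨cls v, hclsP v⟩) i = (e i : Finset V) := by
    intro e i
    ext v
    unfold fib
    rw [Finset.mem_filter]
    constructor
    · rintro ⟨-, h⟩
      have h1 : (⟨cls v, hclsP v⟩ : {A // A ∈ P}) = e i := by
        rw [← h, Equiv.apply_symm_apply]
      have h2 : cls v = (e i : Finset V) := congrArg Subtype.val h1
      rw [← h2]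
      exact hclsm v
    · intro h
      refine ⟨Finset.mem_univ _, ?_⟩
      have h2 : cls v = (e i : Finset V) := hcls _ (e i).2 v h
      rw [Equiv.symm_apply_eq]
      exact Subtype.ext h2
  have hinj : Function.Injective
      (fun (e : Fin l ≃ {A // A ∈ P}) (v : V) => e.symm ⟨cls v, hclsP v⟩) := by
    intro e e' h
    apply Equiv.ext
    intro i
    apply Subtype.ext
    rw [← hfib e i, ← hfib e' i]
    have h' : (fun v => e.symm ⟨cls v, hclsP v⟩) = (fun v => e'.symm ⟨cls v, hclsP v⟩) := h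
    rw [h']
  refine ⟨univ.map ⟨_, hinj⟩, ?_, ?_⟩
  · rw [Finset.card_map, Finset.card_univ, hcardE]
  · intro f hf
    rw [Finset.mem_map] at hf
    obtain ⟨e, -, rfl⟩ := hf
    constructor
    · intro i
      obtain ⟨v, hv⟩ := hne _ (e i).2
      refine ⟨v, ?_⟩
      change e.symm ⟨cls v, hclsP v⟩ = i
      rw [Equiv.symm_apply_eq]
      exact Subtype.ext (hcls _ (e i).2 v hv)
    · ext A
      rw [Finset.mem_image]
      constructor
      · rintro ⟨i, -, h⟩
        have h3 : fib (fun v => e.symm ⟨cls v, hclsP v⟩) i = A := h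
        rw [← h3, hfib e i]
        exact (e i).2
      · intro hA
        refine ⟨e.symm ⟨A, hA⟩, Finset.mem_univ _, ?_⟩
        change fib (fun v => e.symm ⟨cls v, hclsP v⟩) (e.symm ⟨A, hA⟩) = A
        rw [hfib, Equiv.apply_symm_apply]

private lemma memPt {V : Type} [Fintype V] {P : Finset (Finset V)} (h : P ∈ Pt V) :
    (∀ A ∈ P, A.Nonempty) ∧ (∀ A ∈ P, ∀ B ∈ P, A ≠ B → Disjoint A B) ∧
      ∀ v : V, ∃ A ∈ P, v ∈ A := by
  simp only [Pt, Finset.mem_filter, Finset.mem_univ, true_and] at h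
  exact h

theorem hLAB : StLAB := by
  intro V _ _ l Φ hΦ
  have hE : ∀ P : Finset (Finset V), ∃ E : Finset (V → Fin l), P ∈ Pt V → P.card = l →
      (E.card = l.factorial ∧ ∀ f ∈ E, Function.Surjective f ∧ univ.image (fib f) = P) := by
    intro P
    by_cases h : P ∈ Pt V ∧ P.card = l
    · obtain ⟨h1, h2⟩ := h
      obtain ⟨E, hE⟩ := count l P (memPt h1).1 (memPt h1).2.1 (memPt h1).2.2 h2
      exact ⟨E, fun _ _ => hE⟩
    · exact ⟨∅, fun h1 h2 => absurd ⟨h1, h2⟩ h⟩
  choose E hE using hE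
  have hdisj : Set.PairwiseDisjoint (((Pt V).filter (fun P => P.card = l) :
      Finset (Finset (Finset V))) : Set (Finset (Finset V))) E := by
    intro P hP Q hQ hne
    rw [Finset.mem_coe, Finset.mem_filter] at hP hQ
    refine Finset.disjoint_left.2 fun f hf hf' => hne ?_
    rw [← ((hE P hP.1 hP.2).2 f hf).2, ← ((hE Q hQ.1 hQ.2).2 f hf').2]
  have h1 : (l.factorial : ℝ) * ∑ P ∈ (Pt V).filter (fun P => P.card = l), Φ P =
      ∑ P ∈ (Pt V).filter (fun P => P.card = l), ∑ f ∈ E P, Φ (univ.image (fib f)) := by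
    rw [Finset.mul_sum]
    refine Finset.sum_congr rfl fun P hP => ?_
    rw [Finset.mem_filter] at hP
    rw [Finset.sum_congr rfl (g := fun _ => Φ P)
      (fun f hf => by rw [((hE P hP.1 hP.2).2 f hf).2]), Finset.sum_const, nsmul_eq_mul,
      (hE P hP.1 hP.2).1]
  rw [h1, ← Finset.sum_biUnion hdisj]
  refine Finset.sum_le_sum_of_subset_of_nonneg ?_ (fun f _ _ => hΦ _)
  intro f hf
  rw [Finset.mem_biUnion] at hf
  obtain ⟨P, hP, hfP⟩ := hf
  rw [Finset.mem_filter] at hP ⊢
  exact ⟨Finset.mem_univ _, ((hE P hP.1 hP.2).2 f hfP).1⟩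

end Pool.Agent.Helper24.UX
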